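import Pool.Agent.H884R2.Sko.Density
import Pool.Agent.H884R2.Sko.Final

/-!
# The Skolem Problem for generic inputs

For every order `d`, all but a proportion `36 ^ d (1 - 1 / (2 · 4 ^ d d!)) ^ π(log_4 H)` of the
inputs (coefficients and initial values) bounded by `H` in absolute value have a prime
`p ≤ log_4 H` which divides no term of the sequence; and a prime `p` divides no term if it divides
none of the first `p ^ d` terms. So for fixed `d` the Skolem Problem is decided by computing at most
`(log_4 H) ^ (d + 1)` residues, polynomially many in the size of the input, for all but a proportion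
`exp (- c_d log H / log log H)` of the inputs. One errorless algorithm, valid for all inputs, halts
on these inputs.

The estimate is the theorem `main` of the starting file `Pool/Agent/H884R2/Sko/Final.lean` (by
helper884 and the helpers named in that development), which had not been handed in; the starting
result `MP_8d13b5_lc.AlmostAllInitialValues` treats almost all initial values of one recurrence
with squarefree characteristic polynomial, without a rate.
-/

set_option autoImplicit false

namespace Pool.Agent.Results.MP_8d13b5_lc.GenericInputs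

open Finset Pool.Agent.H884R2.Sko Pool.Agent.H692R2.USS
open scoped Classical

/-- a linear recurrence sequence over a finite field takes all its values among the first
`p ^ d` terms -/
theorem exists_small_index {p : ℕ} [Fact p.Prime] {d : ℕ} (c a : Fin d → ZMod p) :
    ∀ n : ℕ, ∃ m < p ^ d, seq c a m = seq c a n := by
  -- two equal state vectors
  obtain ⟨i, j, hij, hj, hv⟩ : ∃ i j : ℕ, i < j ∧ j ≤ p ^ d ∧
      (fun s : Fin d => seq c a (i + s)) = fun s : Fin d => seq c a (j + s) := by
    have hcard : Fintype.card (Fin d → ZMod p) < Fintype.card (Fin (p ^ d + 1)) := by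
      rw [Fintype.card_fun, ZMod.card, Fintype.card_fin, Fintype.card_fin]
      omega
    obtain ⟨x, y, hxy, he⟩ := Fintype.exists_ne_map_eq_of_card_lt
      (fun k : Fin (p ^ d + 1) => fun s : Fin d => seq c a ((k : ℕ) + s)) hcard
    rcases lt_or_gt_of_ne (fun h => hxy (Fin.ext h) : (x : ℕ) ≠ y) with h | h
    · exact ⟨x, y, h, by omega, he⟩
    · exact ⟨y, x, h, by omega, he.symm⟩
  have hper : ∀ m : ℕ, seq c a (i + m) = seq c a (j + m) := by
    intro m
    induction m using Nat.strong_induction_on with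
    | _ m ih =>
      by_cases hm : m < d
      · exact congrFun hv ⟨m, hm⟩
      · obtain ⟨k, rfl⟩ : ∃ k, m = k + d := ⟨m - d, by omega⟩
        rw [← add_assoc, ← add_assoc, seq_sol, seq_sol]
        refine Finset.sum_congr rfl fun s _ => ?_
        have h := ih (k + s) (by have := s.2; omega)
        rw [← add_assoc, ← add_assoc] at h
        rw [h]
  intro n
  induction n using Nat.strong_induction_on with
  | _ n ih =>
    by_cases hn : n < p ^ d
    · exact ⟨n, hn, rfl⟩
    · obtain ⟨m, hm, h⟩ := ih (i + (n - j)) (by omega)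
      refine ⟨m, hm, h.trans ?_⟩
      rw [hper]
      congr 1
      omega

/-- Inputs are pairs `(c, a)` of integer vectors; `IsSeq c a u` says that `u` is the sequence with
`u_{n+d} = ∑ c_i u_{n+d-i}` and initial values `a`.

* One partial recursive `A`, which reads all linear recurrence sequences (of all orders), never
  errs, and halts iff the sequence has a zero or some prime divides no term.
* For all `d, H ≥ 1`: for at most `36 ^ d (1 - 1 / (2 · 4 ^ d d!)) ^ π(log_4 H) (2 H + 1) ^ (2 d)` of the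
  `(2 H + 1) ^ (2 d)` inputs of order `d` with entries in `[-H, H]` every prime `p ≤ log_4 H` divides
  one of the first `p ^ d` terms; if `c_d ≠ 0` and some prime `p ≤ log_4 H` divides none of the first
  `p ^ d` terms, then `p` divides no term and `A` halts.
* In particular the proportion of these inputs with `c_d ≠ 0` on which `A` does not halt, or for
  which the sequence has no zero and no prime `p ≤ log_4 H` divides none of the first `p ^ d` terms,
  tends to zero as `H → ∞`. -/
theorem result :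
    ∃ A : List (ℕ × ℕ) × List (ℕ × ℕ) →. Bool, Partrec A ∧
      (∀ p u, IsLRS p u → ∀ b ∈ A p, (b = true ↔ ∃ n, u n = 0)) ∧
      (∀ p u, IsLRS p u →
        ((A p).Dom ↔ (∃ n, u n = 0) ∨ ∃ q : ℕ, q.Prime ∧ ∀ n, ¬ (q : ℤ) ∣ u n)) ∧
      ∀ (d : ℕ) (hd : 1 ≤ d),
        (∀ H : ℕ, 1 ≤ H →
          (((box (0 : Fin d → ℤ) H ×ˢ box (0 : Fin d → ℤ) H).filter (fun x =>
            ∀ p : ℕ, p.Prime → p ≤ Nat.log 4 H →
              ∃ u, IsSeq x.1 x.2 u ∧ ∃ n < p ^ d, (p : ℤ) ∣ u n)).card : ℝ) ≤
            36 ^ d * (1 - 1 / (2 * 4 ^ d * (d.factorial : ℝ))) ^ Nat.primeCounting (Nat.log 4 H) *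
              (2 * H + 1) ^ (2 * d)) ∧
        (∀ (c a : Fin d → ℤ) (u : ℕ → ℤ) (p : ℕ), IsSeq c a u → p.Prime →
          (∀ n < p ^ d, ¬ (p : ℤ) ∣ u n) → (∀ n, ¬ (p : ℤ) ∣ u n) ∧
            (c ⟨d - 1, by omega⟩ ≠ 0 → (A (code c, code a)).Dom)) ∧
        Filter.Tendsto (fun H : ℕ =>
          (((box (0 : Fin d → ℤ) H ×ˢ box (0 : Fin d → ℤ) H).filter (fun x =>
            x.1 ⟨d - 1, by omega⟩ ≠ 0 ∧ ¬ (A (code x.1, code x.2)).Dom)).card : ℝ) /
              (2 * H + 1) ^ (2 * d)) Filter.atTop (nhds 0) := by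
  obtain ⟨A, hA, h⟩ := algo
  refine ⟨A, hA, fun p u hu => (h p u hu).1, fun p u hu => (h p u hu).2, ?_⟩
  intro d hd
  -- a prime that divides none of the first terms divides no term
  have hsmall : ∀ (c a : Fin d → ℤ) (u : ℕ → ℤ) (p : ℕ), IsSeq c a u → p.Prime →
      (∀ n < p ^ d, ¬ (p : ℤ) ∣ u n) → ∀ n, ¬ (p : ℤ) ∣ u n := by
    intro c a u p hu hp hn n hdiv
    haveI : Fact p.Prime := ⟨hp⟩
    obtain ⟨m, hm, he⟩ := exists_small_index (fun i => ((c (Fin.rev i) : ℤ) : ZMod p))
      (fun i => ((a i : ℤ) : ZMod p)) n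
    apply hn m hm
    have h1 := map_seq (Int.castRingHom (ZMod p)) (fun i => c (Fin.rev i)) a n
    have h2 := map_seq (Int.castRingHom (ZMod p)) (fun i => c (Fin.rev i)) a m
    rw [(isSeq_iff c a u).1 hu n] at hdiv
    rw [eq_intCast, (ZMod.intCast_zmod_eq_zero_iff_dvd _ _).2 hdiv] at h1
    rw [(isSeq_iff c a u).1 hu m, ← ZMod.intCast_zmod_eq_zero_iff_dvd]
    rw [eq_intCast] at h2
    rw [h2]
    exact he.trans h1.symm
  have hcount : ∀ H : ℕ, 1 ≤ H →
      (((box (0 : Fin d → ℤ) H ×ˢ box (0 : Fin d → ℤ) H).filter (fun x =>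
        ∀ p : ℕ, p.Prime → p ≤ Nat.log 4 H →
          ∃ u, IsSeq x.1 x.2 u ∧ ∃ n < p ^ d, (p : ℤ) ∣ u n)).card : ℝ) ≤
        36 ^ d * (1 - 1 / (2 * 4 ^ d * (d.factorial : ℝ))) ^ Nat.primeCounting (Nat.log 4 H) *
          (2 * H + 1) ^ (2 * d) := by
    intro H hH
    set B := (box (0 : Fin d → ℤ) H ×ˢ box (0 : Fin d → ℤ) H).filter (fun x =>
        ∀ p : ℕ, p.Prime → p ≤ Nat.log 4 H →
          ∃ u, IsSeq x.1 x.2 u ∧ ∃ n < p ^ d, (p : ℤ) ∣ u n) with hB
    set g : (Fin d → ℤ) × (Fin d → ℤ) → (Fin d → ℤ) × (Fin d → ℤ) :=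
      fun x => (fun i => x.1 (Fin.rev i), x.2) with hg
    have hginj : Function.Injective g := by
      intro x y hxy
      rw [hg] at hxy
      simp only [Prod.mk.injEq] at hxy
      refine Prod.ext ?_ hxy.2
      funext i
      have := congrFun hxy.1 (Fin.rev i)
      simpa using this
    have h1 := main d hd H hH (B.image g) (by
      intro y hy
      rw [Finset.mem_image] at hy
      obtain ⟨x, hx, rfl⟩ := hy
      rw [hB, Finset.mem_filter, Finset.mem_product, mem_box, mem_box] at hx
      refine ⟨fun i => ?_, fun i => ?_, fun p hp hpH => ?_⟩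
      · have := hx.1.1 (Fin.rev i)
        simpa using this
      · have := hx.1.2 i
        simpa using this
      · obtain ⟨u, hu, n, -, hn⟩ := hx.2 p hp hpH
        refine ⟨n, ?_⟩
        rw [(isSeq_iff _ _ u).1 hu n] at hn
        exact hn)
    rw [Finset.card_image_of_injective _ hginj] at h1
    have hk := kappa_le d
    have hk0 : (0 : ℝ) ≤ 1 - kappa d := by linarith
    have h2 : (3 * (H : ℝ)) ^ (2 * d) * 2 ^ (4 * d) ≤ 36 ^ d * (2 * H + 1) ^ (2 * d) := by
      have e1 : (3 * (H : ℝ)) ^ (2 * d) * 2 ^ (4 * d) = 36 ^ d * (2 * (H : ℝ)) ^ (2 * d) := by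
        rw [pow_mul, pow_mul, pow_mul, ← mul_pow, ← mul_pow]
        congr 1
        ring
      rw [e1]
      apply mul_le_mul_of_nonneg_left _ (by positivity)
      apply pow_le_pow_left₀ (by positivity)
      linarith
    calc (B.card : ℝ) ≤ (3 * H) ^ (2 * d) * 2 ^ (4 * d) *
          (1 - kappa d) ^ Nat.primeCounting (Nat.log 4 H) := h1
      _ ≤ 36 ^ d * (2 * H + 1) ^ (2 * d) *
          (1 - kappa d) ^ Nat.primeCounting (Nat.log 4 H) :=
        mul_le_mul_of_nonneg_right h2 (pow_nonneg hk0 _)
      _ = _ := by unfold kappa; ring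
  refine ⟨hcount, ?_, ?_⟩
  · intro c a u p hu hp hn
    have h1 := hsmall c a u p hu hp hn
    exact ⟨h1, fun hc => (h _ u (isLRS_code hd c a hc hu)).2.2 (Or.inr ⟨p, hp, h1⟩)⟩
  · -- the limit
    set q : ℝ := 1 - 1 / (2 * 4 ^ d * (d.factorial : ℝ)) with hq
    have hqk : q = 1 - kappa d := by rw [hq]; rfl
    have hq0 : 0 ≤ q := by rw [hqk]; have := kappa_le d; linarith
    have hq1 : q < 1 := by rw [hqk]; have := kappa_pos d; linarith
    have hlim : Filter.Tendsto (fun H : ℕ => 36 ^ d * q ^ Nat.primeCounting (Nat.log 4 H))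
        Filter.atTop (nhds 0) := by
      have hlog : Filter.Tendsto (fun H : ℕ => Nat.log 4 H) Filter.atTop Filter.atTop := by
        rw [Filter.tendsto_atTop]
        intro b
        filter_upwards [Filter.eventually_ge_atTop (4 ^ b)] with H hH
        exact Nat.le_log_of_pow_le (by norm_num) hH
      have hpi : Filter.Tendsto Nat.primeCounting Filter.atTop Filter.atTop :=
        Nat.tendsto_primeCounting
      have h1 := ((tendsto_pow_atTop_nhds_zero_of_lt_one hq0 hq1).comp (hpi.comp hlog)).const_mul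
        ((36 : ℝ) ^ d)
      rw [mul_zero] at h1
      exact h1
    refine squeeze_zero' (Filter.Eventually.of_forall fun H => by positivity) ?_ hlim
    filter_upwards [Filter.eventually_ge_atTop 1] with H hH
    rw [div_le_iff₀ (by positivity)]
    refine le_trans ?_ (hcount H hH)
    have hsub : (box (0 : Fin d → ℤ) H ×ˢ box (0 : Fin d → ℤ) H).filter (fun x =>
        x.1 ⟨d - 1, by omega⟩ ≠ 0 ∧ ¬ (A (code x.1, code x.2)).Dom) ⊆
        (box (0 : Fin d → ℤ) H ×ˢ box (0 : Fin d → ℤ) H).filter (fun x =>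
        ∀ p : ℕ, p.Prime → p ≤ Nat.log 4 H →
          ∃ u, IsSeq x.1 x.2 u ∧ ∃ n < p ^ d, (p : ℤ) ∣ u n) := by
      intro x hx
      rw [Finset.mem_filter] at hx ⊢
      refine ⟨hx.1, fun p hp _ => ?_⟩
      obtain ⟨u, hu⟩ := exists_isSeq x.1 x.2
      refine ⟨u, hu, ?_⟩
      by_contra hcon
      push Not at hcon
      have h1 := hsmall x.1 x.2 u p hu hp hcon
      exact hx.2.2 ((h _ u (isLRS_code hd x.1 x.2 hx.2.1 hu)).2.2 (Or.inr ⟨p, hp, h1⟩))
    exact_mod_cast Finset.card_le_card hsub

end Pool.Agent.Results.MP_8d13b5_lc.GenericInputs
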