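import Pool.Agent.H684R3.Smo.Done

set_option autoImplicit false

/-!
# Certificates of polylogarithmic size for every simple recurrence

For every integer recurrence with squarefree characteristic polynomial (any order, any number of
dominant roots) there are `A, δ > 0` such that for all large `H`, in every box of initial values of
side `2 H + 1` (with any centre), for all but a proportion `H ^ (-δ)` of the initial values there
is a prime `p ≤ (log H) ^ A` modulo which the sequence has period `(p - 1) / 2` and no zero term.

(The starting result `AlmostAllInitialValues` gives a proportion tending to zero, without a rate,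
and no bound for the prime.)

Proof idea.  The primes `p` for which the characteristic roots are distinct nonzero squares modulo
`p` contain those which split a certain polynomial; their number up to `y` is at least `y ^ θ` for
all large `y`, by the pole of the Dedekind zeta function at `1` and Mertens' theorem.  For such a
prime at most half of the initial values modulo `p` give a zero term.  The power saving comes from
a second moment for products over blocks of primes.
-/

namespace Pool.Agent.Results.MP_8d13b5_lc.PolylogCertificates

open Pool.Agent.H884R2.Sko Pool.Agent.H684R3.Smo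
open scoped Classical

theorem result (d : ℕ) (hd : 1 ≤ d) (c : Fin d → ℤ) (hc : c ⟨d - 1, by omega⟩ ≠ 0)
    (hsq : Squarefree ((charPoly c).map (Int.castRingHom ℚ))) :
    ∃ A δ : ℝ, 0 < A ∧ 0 < δ ∧ ∃ H₀ : ℕ, ∀ H : ℕ, H₀ ≤ H → ∀ b : Fin d → ℤ,
      ∃ E ⊆ box b H, (E.card : ℝ) ≤ (2 * (H : ℝ) + 1) ^ d * (H : ℝ) ^ (-δ) ∧
        ∀ a ∈ box b H \ E, ∃ p : ℕ, p.Prime ∧ (p : ℝ) ≤ Real.log H ^ A ∧ ∀ u, IsSeq c a u →
          (∀ n, (p : ℤ) ∣ u (n + (p - 1) / 2) - u n) ∧ ∀ n, ¬ (p : ℤ) ∣ u n := by
  obtain ⟨A, δ, hA, hδ, H₀, h⟩ := part2 h5 t7 t8 d hd c hc hsq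
  refine ⟨A, δ, hA, hδ, H₀, fun H hH b => ⟨_, Finset.filter_subset _ _, h H hH b, ?_⟩⟩
  intro a ha
  rw [Finset.mem_sdiff, Finset.mem_filter, not_and, not_not] at ha
  exact ha.2 ha.1

end Pool.Agent.Results.MP_8d13b5_lc.PolylogCertificates
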