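import Pool.Agent.H684R3.Smo.Done

set_option autoImplicit false

/-!
# Smoothed analysis of the Skolem Problem

There is one total errorless algorithm `f` such that for every order `d` and every `A > 1` there is
`δ > 0` with the following property.  For all large `H`, in EVERY box of inputs (coefficients,
initial values) of side `2 H + 1`, with arbitrary centre, for all but a proportion `H ^ (-δ)` of
the inputs there is a prime `p ≤ (log H) ^ A` modulo which the sequence has period `(p - 1) / 2` and
no zero term; the algorithm, with the parameter `(log H) ^ A`, recognises these sequences as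
zero-free.  So near every input the hard inputs are exponentially rare in `log H`, and the
certificates are polynomial in `log H`, independently of the size of the centre.

Proof idea.  For a positive proportion `γ_p ≥ κ` of the inputs modulo `p` all characteristic roots
are distinct nonzero squares and no term is zero.  Take blocks `B_1, ..., B_m` of `K` primes `≤ y`
with `y ^ (2 m) ≤ H ^ (1 / 4)`.  If all these primes are bad for an input, then
`∏_j (∑_{p ∈ B_j} (1_{good} - γ_p))² ≥ (κ K) ^ (2 m)`, while by the Chinese remainder theorem and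
the equidistribution of boxes this product is at most `(1 + o(1)) K ^ m` on average.
-/

namespace Pool.Agent.Results.MP_8d13b5_lc.SmoothedAnalysis

open Pool.Agent.H884R2.Sko Pool.Agent.H692R2.USS Pool.Agent.H684R3.Smo
open scoped Classical

theorem result :
    -- one total computable function (`y` is a parameter, `p` the coded input)
    ∃ f : ℕ × (List (ℕ × ℕ) × List (ℕ × ℕ)) → Bool, Computable f ∧
      -- it never errs
      (∀ (y : ℕ) (p : List (ℕ × ℕ) × List (ℕ × ℕ)) (u : ℕ → ℤ), IsLRS p u →
        f (y, p) = true → ∀ n, u n ≠ 0) ∧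
      -- every order, every exponent `A > 1`, every box of inputs `(c, a)`, with any centre `(b, b')`
      ∀ (d : ℕ) (hd : 1 ≤ d) (A : ℝ), 1 < A → ∃ δ : ℝ, 0 < δ ∧ ∃ H₀ : ℕ, ∀ H : ℕ, H₀ ≤ H →
        ∀ b b' : Fin d → ℤ, ∃ E ⊆ box b H ×ˢ box b' H,
          -- the exceptional set is small
          (E.card : ℝ) ≤ (2 * (H : ℝ) + 1) ^ (2 * d) * (H : ℝ) ^ (-δ) ∧
          ∀ x ∈ (box b H ×ˢ box b' H) \ E,
            -- outside it the algorithm recognises that there is no zero
            (x.1 ⟨d - 1, by omega⟩ ≠ 0 → f (⌊Real.log H ^ A⌋₊, (code x.1, code x.2)) = true) ∧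
            -- because of a prime `p ≤ (log H) ^ A`
            ∃ p : ℕ, p.Prime ∧ (p : ℝ) ≤ Real.log H ^ A ∧ ∀ u, IsSeq x.1 x.2 u →
              (∀ n, (p : ℤ) ∣ u (n + (p - 1) / 2) - u n) ∧ ∀ n, ¬ (p : ℤ) ∣ u n := by
  obtain ⟨f, hf, hfe⟩ := t10
  refine ⟨f, hf, fun y p u hu ht n hn => ?_, fun d hd A hA => ?_⟩
  · obtain ⟨q, _, _, hq⟩ := (hfe y p u hu).1 ht
    apply hq n
    rw [hn]
    exact dvd_zero _
  · obtain ⟨δ, hδ, H₀, h⟩ := part1 h5 t6 t9 d hd A hA
    refine ⟨δ, hδ, H₀, fun H hH b b' => ⟨_, Finset.filter_subset _ _, h H hH b b', ?_⟩⟩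
    intro x hx
    rw [Finset.mem_sdiff, Finset.mem_filter, not_and, not_not] at hx
    have hcert := hx.2 hx.1
    refine ⟨fun hc => ?_, hcert⟩
    obtain ⟨p, hp, hpA, hpu⟩ := hcert
    obtain ⟨u, hu⟩ := exists_isSeq x.1 x.2
    rw [hfe _ _ u (isLRS_code hd x.1 x.2 hc hu)]
    exact ⟨p, Nat.le_floor hpA, hp, (hpu u hu).2⟩

end Pool.Agent.Results.MP_8d13b5_lc.SmoothedAnalysis
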