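import Pool.Agent.H684R3.USS.Expl

set_option autoImplicit false

/-!
# Explicit universal Skolem sets of density one

`G k` is an explicit set of natural numbers, defined by congruence conditions modulo primes, without
any reference to recurrences: `n` belongs to `G k` if there are at least `k` numbers `b` such that
`n ≡ b` modulo `p - 1` for a prime `p` which splits all monic integer polynomials of degree and
coefficients at most `k`, with `4 k (k + 1) (b + 1) ≤ log₂ p`, and `n` modulo `p` is not a root of a
nonzero integer polynomial of degree at most `k` with coefficients below `p ^ (1 / (4 (k + 1)))`.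

(1) Every `G k` has natural density one.
(2) For every integer linear recurrence sequence `u` (of any order, simple or not) one can compute
`K` such that for all `k ≥ K` every zero of `u` in `G k` lies in a full arithmetic progression of
zeros of `u`: the isolated zeros of `u` avoid all the sets `G k` with `k ≥ K`.
(3) Hence there is a decidable set `S` of density one, eventually contained in the sets `G k` with
`k → ∞`, such that the Skolem Problem with `n` restricted to `S` is decidable: a universal Skolem
set of density one.

(Known before: unconditional universal Skolem sets of lower density 0.29, and of density one under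
the Bateman-Horn conjecture.)

Proof idea.  Writing `D u_n = ∑_j n^j v_j(n)` with simple sequences `v_j`, `u_n = 0` gives
`∑_j n^j v_j(b) = 0` modulo `p`, hence `v_j(b) = 0` for at least `k` numbers `b` in one residue class,
which contradicts an effective Strassmann bound.  That almost all `n` belong to `G k` is proved by
the second moment method, with the Brun-Titchmarsh inequality and the density of split primes.
-/

namespace Pool.Agent.Results.MP_8d13b5_lc.UniversalSkolemSet

open Pool.Agent.H692R2.USS Pool.Agent.H684R3.USS
open scoped Classical

theorem result :
    -- (1) the explicit sets `G k` have natural density one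
    (∀ k : ℕ, Filter.Tendsto
      (fun N : ℕ => (((Finset.range N).filter (fun n => n ∈ G k)).card : ℝ) / N)
      Filter.atTop (nhds 1)) ∧
    -- (2) from the data of a linear recurrence sequence one can compute `K` such that for `k ≥ K`
    -- all zeros in `G k` lie in full arithmetic progressions of zeros
    (∃ K : List (ℕ × ℕ) × List (ℕ × ℕ) → ℕ, Computable K ∧
      ∀ (p : List (ℕ × ℕ) × List (ℕ × ℕ)) (u : ℕ → ℤ), IsLRS p u → ∀ k, K p ≤ k →
        ∀ n ∈ G k, u n = 0 → ∃ T : ℕ, 1 ≤ T ∧ ∀ l : ℕ, u (n % T + T * l) = 0) ∧
    -- (3) a decidable set of density one on which the Skolem Problem is decidable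
    ∃ S : Set ℕ,
      ComputablePred (fun n : ℕ => n ∈ S) ∧
      Filter.Tendsto (fun N : ℕ => (((Finset.range N).filter (fun n => n ∈ S)).card : ℝ) / N)
        Filter.atTop (nhds 1) ∧
      (∀ k : ℕ, ∃ N : ℕ, ∀ n ∈ S, N ≤ n → ∃ k' ≥ k, n ∈ G k') ∧
      ComputablePred (fun p : List (ℕ × ℕ) × List (ℕ × ℕ) =>
        ∃ u : ℕ → ℤ, IsLRS p u ∧ ∃ n ∈ S, u n = 0) :=
  ⟨G_density, exists_K, exists_S⟩

end Pool.Agent.Results.MP_8d13b5_lc.UniversalSkolemSet
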